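import Pool.Graph.R_seed8.W40.Ch.A10
import Pool.Graph.R_seed8.TH237.CH.Rate

/-!
Auxiliary facts on Chamberland's interpolation `f` of the `3x+1` map: the first three positive fixed
points, the invariance of `[μ₁, μ₃]`, the completely invariant form of the escaping set, and the
intervals `J n`.
-/

set_option autoImplicit false

namespace Pool.Agent.Helper67.Chb

open Filter Topology MeasureTheory Set

/-- The `3x+1` map on the nonnegative integers. -/
def T (n : ℕ) : ℕ := if n % 2 = 0 then n / 2 else (3 * n + 1) / 2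

/-- The escaping set `E` (for `a = μ₁`, `c = μ₃`). -/
def Esc (f : ℝ → ℝ) (a c : ℝ) : Set ℝ := {x : ℝ | c ≤ x ∧ ∀ n : ℕ, f^[n] x ∉ Set.Icc a c}

/-- The Lebesgue measure of `A ∩ [m, m+1)`. -/
noncomputable def share (A : Set ℝ) (m : ℕ) : ℝ := (volume (A ∩ Set.Ico (m : ℝ) (m + 1))).toReal

/-- The interval `[n, n + 5/(6(2n+1))]`. -/
def J (n : ℕ) : Set ℝ := Set.Icc (n : ℝ) (n + 5 / (6 * (2 * (n : ℝ) + 1)))

/-! ### fixed points -/

section Fix

open Real

/-- `h x = (2x+1) cos (π x) - 1`; the fixed points of `f` are the zeros of `h`. -/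
noncomputable def h (x : ℝ) : ℝ := (2 * x + 1) * Real.cos (Real.pi * x) - 1

theorem f_fix_iff (x : ℝ) : Pool.Agent.H934R2.Ch.f x = x ↔ h x = 0 := by
  unfold Pool.Agent.H934R2.Ch.f h
  constructor <;> intro H <;> linarith

theorem h_cont : Continuous h := by unfold h; fun_prop

theorem hasDeriv_h (x : ℝ) : HasDerivAt h
    (2 * cos (π * x) - (2 * x + 1) * π * sin (π * x)) x := by
  have h1 : HasDerivAt (fun x : ℝ => 2 * x + 1) 2 x := by
    simpa using ((hasDerivAt_id x).const_mul (2 : ℝ)).add_const (1 : ℝ)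
  have h2 : HasDerivAt (fun x : ℝ => cos (π * x)) (-sin (π * x) * π) x := by
    have h0 : HasDerivAt (fun x : ℝ => π * x) π x := by
      simpa using (hasDerivAt_id x).const_mul π
    exact h0.cos
  have h3 : HasDerivAt h _ x := (h1.mul h2).sub_const (1 : ℝ)
  exact h3.congr_deriv (by ring)

theorem deriv_h : deriv h = fun x => 2 * cos (π * x) - (2 * x + 1) * π * sin (π * x) := by
  funext x; exact (hasDeriv_h x).deriv

theorem hasDeriv_h2 (x : ℝ) : HasDerivAt (fun x => 2 * cos (π * x) - (2 * x + 1) * π * sin (π * x))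
    (-(4 * π * sin (π * x) + (2 * x + 1) * π ^ 2 * cos (π * x))) x := by
  have h1 : HasDerivAt (fun x : ℝ => (2 * x + 1) * π) (2 * π) x := by
    have := (((hasDerivAt_id x).const_mul (2 : ℝ)).add_const (1 : ℝ)).mul_const π
    simpa using this
  have h0 : HasDerivAt (fun x : ℝ => π * x) π x := by
    simpa using (hasDerivAt_id x).const_mul π
  have h2 : HasDerivAt (fun x : ℝ => 2 * cos (π * x)) (2 * (-sin (π * x) * π)) x :=
    h0.cos.const_mul 2
  have h3 : HasDerivAt (fun x : ℝ => sin (π * x)) (cos (π * x) * π) x := h0.sin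
  have h4 : HasDerivAt (fun x => 2 * cos (π * x) - (2 * x + 1) * π * sin (π * x)) _ x :=
    h2.sub (h1.mul h3)
  exact h4.congr_deriv (by ring)

/-- `h` is strictly concave on `[2k, 2k + 1/2]`. -/
theorem h_concave (k : ℕ) : StrictConcaveOn ℝ (Set.Icc (2 * (k : ℝ)) (2 * k + 1 / 2)) h := by
  apply strictConcaveOn_of_deriv2_neg (convex_Icc _ _) h_cont.continuousOn
  intro x hx
  rw [interior_Icc] at hx
  have e : deriv^[2] h x = -(4 * π * sin (π * x) + (2 * x + 1) * π ^ 2 * cos (π * x)) := by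
    show deriv (deriv h) x = _
    rw [deriv_h]
    exact (hasDeriv_h2 x).deriv
  rw [e]
  have hx0 : 0 < x := lt_of_le_of_lt (by positivity) hx.1
  have e1 : π * x = π * (x - 2 * k) + k * (2 * π) := by ring
  have hs : 0 < sin (π * x) := by
    rw [e1, sin_add_nat_mul_two_pi]
    apply sin_pos_of_pos_of_lt_pi
    · apply mul_pos pi_pos; linarith [hx.1]
    · have : π * (x - 2 * k) < π * 1 := mul_lt_mul_of_pos_left (by linarith [hx.2]) pi_pos
      linarith
  have hc : 0 < cos (π * x) := by
    rw [e1, cos_add_nat_mul_two_pi]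
    apply cos_pos_of_mem_Ioo
    constructor
    · have : 0 < π * (x - 2 * k) := by apply mul_pos pi_pos; linarith [hx.1]
      linarith [pi_pos]
    · have : π * (x - 2 * k) < π * (1 / 2) := mul_lt_mul_of_pos_left (by linarith [hx.2]) pi_pos
      linarith
  have h1 : 0 < 4 * π * sin (π * x) := by positivity
  have h2 : 0 < (2 * x + 1) * π ^ 2 * cos (π * x) := by positivity
  linarith

theorem conc (k : ℕ) {x y s t : ℝ} (hx : x ∈ Set.Icc (2 * (k : ℝ)) (2 * k + 1 / 2))
    (hy : y ∈ Set.Icc (2 * (k : ℝ)) (2 * k + 1 / 2)) (hxy : x < y) (hs : 0 < s) (ht : 0 < t)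
    (hst : s + t = 1) : s * h x + t * h y < h (s * x + t * y) :=
  (h_concave k).2 hx hy hxy.ne hs ht hst

theorem h_at0 : h 0 = 0 := by simp [h]

theorem h_at2 : h 2 = 4 := by
  unfold h
  rw [show π * 2 = 2 * π by ring, cos_two_pi]; norm_num

theorem cos_pi_half' : cos (π * (1 / 2)) = 0 := by
  rw [show π * (1 / 2) = π / 2 by ring, cos_pi_div_two]

theorem h_half : h (1 / 2) = -1 := by
  unfold h; rw [cos_pi_half']; ring

theorem h_52 : h (5 / 2) = -1 := by
  unfold h
  rw [show π * (5 / 2) = π / 2 + 2 * π by ring, cos_add_two_pi, cos_pi_div_two]; ring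

theorem h_neg_mid {x : ℝ} (h1 : 1 / 2 ≤ x) (h2 : x ≤ 3 / 2) : h x < 0 := by
  have hc : cos (π * x) ≤ 0 := by
    apply cos_nonpos_of_pi_div_two_le_of_le
    · have := mul_le_mul_of_nonneg_left h1 pi_pos.le; linarith
    · have := mul_le_mul_of_nonneg_left h2 pi_pos.le; linarith
  unfold h
  have : (2 * x + 1) * cos (π * x) ≤ 0 := mul_nonpos_of_nonneg_of_nonpos (by linarith) hc
  linarith

/-- `h` is strictly increasing on `[3/2, 2]`. -/
theorem h_mono {x y : ℝ} (h1 : 3 / 2 ≤ x) (h2 : x < y) (h3 : y ≤ 2) : h x < h y := by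
  have hc0 : 0 ≤ cos (π * x) := by
    have e : cos (π * x) = cos (π * (2 - x)) := by
      rw [show π * (2 - x) = 2 * π - π * x by ring, cos_two_pi_sub]
    rw [e]
    apply cos_nonneg_of_mem_Icc
    constructor
    · have : 0 ≤ π * (2 - x) := mul_nonneg pi_pos.le (by linarith)
      linarith [pi_pos]
    · have := mul_le_mul_of_nonneg_left (show 2 - x ≤ 1 / 2 by linarith) pi_pos.le
      linarith
  have hc1 : cos (π * x) < cos (π * y) := by
    have e : cos (π * x) = cos (π * (2 - x)) := by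
      rw [show π * (2 - x) = 2 * π - π * x by ring, cos_two_pi_sub]
    have e' : cos (π * y) = cos (π * (2 - y)) := by
      rw [show π * (2 - y) = 2 * π - π * y by ring, cos_two_pi_sub]
    rw [e, e']
    apply cos_lt_cos_of_nonneg_of_le_pi
    · exact mul_nonneg pi_pos.le (by linarith)
    · have := mul_le_mul_of_nonneg_left (show 2 - x ≤ 1 by linarith) pi_pos.le
      linarith
    · exact mul_lt_mul_of_pos_left (by linarith) pi_pos
  unfold h
  nlinarith

theorem h_32 : h (3 / 2) < 0 := h_neg_mid (by norm_num) le_rfl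

theorem h_24 : 0 < h (12 / 5) := by
  have e : cos (π * (12 / 5)) = sin (π / 10) := by
    rw [show π * (12 / 5) = (π / 2 - π / 10) + 2 * π by ring, cos_add_two_pi, cos_pi_div_two_sub]
  have h1 : 2 / π * (π / 10) ≤ sin (π / 10) := by
    apply mul_le_sin
    · positivity
    · linarith [pi_pos]
  have h2 : 2 / π * (π / 10) = 1 / 5 := by
    field_simp; norm_num
  unfold h
  rw [e]
  rw [h2] at h1
  nlinarith

/-- the sign pattern of `h` on `(0, 5/2]`. -/
theorem h_pattern : ∃ z₁ z₂ z₃ : ℝ, 0 < z₁ ∧ z₁ < 1 / 2 ∧ 3 / 2 < z₂ ∧ z₂ < 2 ∧ 12 / 5 < z₃ ∧ z₃ < 5 / 2 ∧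
    h z₁ = 0 ∧ h z₂ = 0 ∧ h z₃ = 0 ∧
    (∀ x, 0 < x → x < z₁ → 0 < h x) ∧ (∀ x, z₁ < x → x < z₂ → h x < 0) ∧
    (∀ x, z₂ < x → x < z₃ → 0 < h x) ∧ (∀ x, z₃ < x → x ≤ 5 / 2 → h x < 0) := by
  -- a strictly concave function: between zeros positive
  obtain ⟨z₂, hz2, hz2'⟩ := intermediate_value_Icc (show (3 / 2 : ℝ) ≤ 2 by norm_num)
    h_cont.continuousOn ⟨h_32.le, by rw [h_at2]; norm_num⟩
  obtain ⟨z₃, hz3, hz3'⟩ := intermediate_value_Icc' (show (12 / 5 : ℝ) ≤ 5 / 2 by norm_num)
    h_cont.continuousOn ⟨by rw [h_52]; norm_num, h_24.le⟩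
  -- positive point in (0, 1/4]
  have h_quarter : 0 < h (1 / 4) := by
    unfold h
    rw [show π * (1 / 4) = π / 4 by ring, cos_pi_div_four]
    have : (1.4 : ℝ) < √2 := by
      rw [Real.lt_sqrt (by norm_num)]; norm_num
    linarith
  obtain ⟨z₁, hz1, hz1'⟩ := intermediate_value_Icc' (show (1 / 4 : ℝ) ≤ 1 / 2 by norm_num)
    h_cont.continuousOn ⟨by rw [h_half]; norm_num, h_quarter.le⟩
  have hz1a : z₁ < 1 / 2 := by
    rcases lt_or_eq_of_le hz1.2 with H | H
    · exact H
    · rw [H, h_half] at hz1'; norm_num at hz1'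
  have hz3a : z₃ < 5 / 2 := by
    rcases lt_or_eq_of_le hz3.2 with H | H
    · exact H
    · rw [H, h_52] at hz3'; norm_num at hz3'
  have hz3b : 12 / 5 < z₃ := by
    rcases lt_or_eq_of_le hz3.1 with H | H
    · exact H
    · have := h_24; rw [H, hz3'] at this; exact absurd this (lt_irrefl _)
  have hz2a : z₂ < 2 := by
    rcases lt_or_eq_of_le hz2.2 with H | H
    · exact H
    · rw [H, h_at2] at hz2'; norm_num at hz2'
  have hz2b : 3 / 2 < z₂ := by
    rcases lt_or_eq_of_le hz2.1 with H | H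
    · exact H
    · have := h_32; rw [H, hz2'] at this; exact absurd this (lt_irrefl _)
  have hz1b : 0 < z₁ := by linarith [hz1.1]
  refine ⟨z₁, z₂, z₃, hz1b, hz1a, hz2b, hz2a, hz3b, hz3a, hz1', hz2', hz3', ?_, ?_, ?_, ?_⟩
  · intro x hx0 hx1
    -- x is a strict convex combination of 0 and z₁
    have hh := conc 0 (x := 0) (y := z₁) (s := 1 - x / z₁) (t := x / z₁)
      (by constructor <;> norm_num) (by constructor <;> push_cast <;> linarith) hz1b
      (by rw [sub_pos, div_lt_one hz1b]; exact hx1) (by positivity) (by ring)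
    simp only [h_at0, hz1', mul_zero, add_zero, zero_add] at hh
    rwa [div_mul_cancel₀ _ hz1b.ne'] at hh
  · intro x hx0 hx1
    rcases lt_or_ge x (1 / 2) with H | H
    · -- x ∈ (z₁, 1/2): otherwise z₁ would be strictly between 0 and x with h z₁ > 0
      by_contra hcon
      rw [not_lt] at hcon
      have hx : 0 < x := by linarith
      have hh := conc 0 (x := 0) (y := x) (s := 1 - z₁ / x) (t := z₁ / x)
        (by constructor <;> norm_num) (by constructor <;> push_cast <;> linarith) hx
        (by rw [sub_pos, div_lt_one hx]; exact hx0) (by positivity) (by ring)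
      simp only [h_at0, mul_zero, zero_add] at hh
      rw [div_mul_cancel₀ _ hx.ne', hz1'] at hh
      have : 0 ≤ z₁ / x * h x := mul_nonneg (by positivity) hcon
      linarith
    · rcases le_or_gt x (3 / 2) with H2 | H2
      · exact h_neg_mid H H2
      · have := h_mono H2.le hx1 hz2a.le
        rw [hz2'] at this; exact this
  · intro x hx0 hx1
    rcases le_or_gt x 2 with H | H
    · have := h_mono hz2b.le hx0 H
      rw [hz2'] at this; exact this
    · -- x ∈ (2, z₃)
      have h20 : (0:ℝ) < z₃ - 2 := by linarith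
      have hh := conc 1 (x := 2) (y := z₃) (s := (z₃ - x) / (z₃ - 2)) (t := (x - 2) / (z₃ - 2))
        (by constructor <;> norm_num) (by constructor <;> push_cast <;> linarith) (by linarith)
        (div_pos (by linarith) h20) (div_pos (by linarith) h20) (by field_simp; ring)
      simp only [h_at2, hz3', mul_zero, add_zero] at hh
      have e : (z₃ - x) / (z₃ - 2) * 2 + (x - 2) / (z₃ - 2) * z₃ = x := by
        field_simp; ring
      rw [e] at hh
      have : 0 < (z₃ - x) / (z₃ - 2) * 4 := mul_pos (div_pos (by linarith) h20) (by norm_num)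
      linarith
  · intro x hx0 hx1
    by_contra hcon
    rw [not_lt] at hcon
    have h20 : (0:ℝ) < x - 2 := by linarith
    have hh := conc 1 (x := 2) (y := x) (s := (x - z₃) / (x - 2)) (t := (z₃ - 2) / (x - 2))
      (by constructor <;> norm_num) (by constructor <;> push_cast <;> linarith) (by linarith)
      (div_pos (by linarith) h20) (div_pos (by linarith) h20) (by field_simp; ring)
    simp only [h_at2] at hh
    have e : (x - z₃) / (x - 2) * 2 + (z₃ - 2) / (x - 2) * x = z₃ := by
      field_simp; ring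
    rw [e, hz3'] at hh
    have h5 : 0 < (x - z₃) / (x - 2) * 4 := mul_pos (div_pos (by linarith) h20) (by norm_num)
    have h6 : 0 ≤ (z₃ - 2) / (x - 2) * h x := mul_nonneg (div_pos (by linarith) h20).le hcon
    linarith

end Fix

section Main

open Pool.Agent.H934R2.Ch (f trap shadow T_iter_pos)
open Pool.Agent.W40.Ch (bb cell)

theorem F_eq (x : ℝ) : f x = x - h x / 4 := by
  unfold Pool.Agent.H934R2.Ch.f h; ring

theorem F_le {x : ℝ} (h0 : 0 ≤ x) (h2 : x ≤ 2) : f x ≤ 12 / 5 := by
  rcases le_or_gt x (126 / 100) with H1 | H1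
  · have := Pool.Agent.W40.Ch.f_ub h0
    linarith
  have e : Real.cos (Real.pi * x) = - Real.cos (Real.pi * (x - 1)) := by
    rw [show Real.pi * x = Real.pi * (x - 1) + Real.pi by ring, Real.cos_add_pi]
  have hpi := Real.pi_pos
  unfold Pool.Agent.H934R2.Ch.f
  rcases le_or_gt x (14 / 10) with H2 | H2
  · have hc : Real.cos (Real.pi * (x - 1)) ≤ √2 / 2 := by
      rw [← Real.cos_pi_div_four]
      apply Real.cos_le_cos_of_nonneg_of_le_pi
      · positivity
      · have := mul_le_mul_of_nonneg_left (show x - 1 ≤ 1 by linarith) hpi.le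
        linarith
      · have := mul_le_mul_of_nonneg_left (show 1 / 4 ≤ x - 1 by linarith) hpi.le
        linarith
    have h3 : √2 < 1.5 := by
      rw [Real.sqrt_lt' (by norm_num)]; norm_num
    rw [e]
    nlinarith
  rcases le_or_gt x (15 / 10) with H3 | H3
  · have hc : Real.cos (Real.pi * (x - 1)) ≤ 1 / 2 := by
      rw [← Real.cos_pi_div_three]
      apply Real.cos_le_cos_of_nonneg_of_le_pi
      · positivity
      · have := mul_le_mul_of_nonneg_left (show x - 1 ≤ 1 by linarith) hpi.le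
        linarith
      · have := mul_le_mul_of_nonneg_left (show 1 / 3 ≤ x - 1 by linarith) hpi.le
        linarith
    rw [e]
    nlinarith
  · have hc : 0 ≤ Real.cos (Real.pi * x) := by
      have e' : Real.cos (Real.pi * x) = Real.cos (Real.pi * (2 - x)) := by
        rw [show Real.pi * (2 - x) = 2 * Real.pi - Real.pi * x by ring, Real.cos_two_pi_sub]
      rw [e']
      apply Real.cos_nonneg_of_mem_Icc
      constructor
      · have : 0 ≤ Real.pi * (2 - x) := mul_nonneg hpi.le (by linarith)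
        linarith
      · have := mul_le_mul_of_nonneg_left (show 2 - x ≤ 1 / 2 by linarith) hpi.le
        linarith
    have : 0 ≤ (2 * x + 1) / 4 * Real.cos (Real.pi * x) := mul_nonneg (by linarith) hc
    linarith

/-- What we need about the first and the third fixed point. -/
structure Good (a c : ℝ) : Prop where
  a_pos : 0 < a
  a_lt : a < 1 / 2
  c_gt : 12 / 5 < c
  c_lt : c < 5 / 2
  maps : ∀ x ∈ Set.Icc a c, f x ∈ Set.Icc a c

theorem good_of {a b c : ℝ} (ha : 0 < a) (hab : a < b) (hbc : b < c) (hfa : h a = 0) (hfb : h b = 0)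
    (hfc : h c = 0) (hall : ∀ x, 0 < x → x ≤ c → h x = 0 → x = a ∨ x = b ∨ x = c) : Good a c := by
  obtain ⟨z₁, z₂, z₃, p1, p2, p3, p4, p5, p6, e1, e2, e3, s1, s2, s3, s4⟩ := h_pattern
  have hz : ∀ x, 0 < x → x ≤ 5 / 2 → h x = 0 → x = z₁ ∨ x = z₂ ∨ x = z₃ := by
    intro x hx0 hx1 hx
    rcases lt_trichotomy x z₁ with H | H | H
    · exact absurd hx (s1 x hx0 H).ne'
    · exact Or.inl H
    rcases lt_trichotomy x z₂ with H' | H' | H'
    · exact absurd hx (s2 x H H').ne
    · exact Or.inr (Or.inl H')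
    rcases lt_trichotomy x z₃ with H'' | H'' | H''
    · exact absurd hx (s3 x H' H'').ne'
    · exact Or.inr (Or.inr H'')
    · exact absurd hx (s4 x H'' hx1).ne
  have hc3 : c = z₃ := by
    rcases lt_trichotomy c z₃ with H | H | H
    · exfalso
      rcases hz a ha (by linarith) hfa with A | A | A <;>
      rcases hz b (by linarith) (by linarith) hfb with B | B | B <;>
      rcases hz c (by linarith) (by linarith) hfc with C | C | C <;> linarith
    · exact H
    · exfalso
      rcases hall z₁ p1 (by linarith) e1 with A | A | A <;>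
      rcases hall z₂ (by linarith) (by linarith) e2 with B | B | B <;>
      rcases hall z₃ (by linarith) (by linarith) e3 with C | C | C <;> linarith
  have ha1 : a = z₁ := by
    rcases hz a ha (by linarith) hfa with A | A | A
    · exact A
    · exfalso
      rcases hz b (by linarith) (by linarith) hfb with B | B | B <;> linarith
    · exfalso; linarith
  subst hc3 ha1
  refine ⟨p1, p2, p5, p6, ?_⟩
  rintro x ⟨hx1, hx2⟩
  rcases le_or_gt x z₂ with H | H
  · have hh : h x ≤ 0 := by
      rcases eq_or_lt_of_le hx1 with A | A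
      · rw [← A, e1]
      · rcases eq_or_lt_of_le H with B | B
        · rw [B, e2]
        · exact (s2 x A B).le
    constructor
    · rw [F_eq]; linarith
    · exact (F_le (by linarith) (by linarith)).trans p5.le
  · have hh : 0 ≤ h x := by
      rcases eq_or_lt_of_le hx2 with A | A
      · rw [A, e3]
      · exact (s3 x H A).le
    constructor
    · have := Pool.Agent.W40.Ch.f_lb (x := x) (by linarith)
      linarith
    · rw [F_eq]; linarith

/-- The completely invariant version of the escaping set. -/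
def Bset (a c : ℝ) : Set ℝ := {x | 0 < x ∧ ∀ n : ℕ, f^[n] x ∉ Set.Icc a c}

theorem Bset_inv {a c : ℝ} (hg : Good a c) : Pool.Agent.W40.Ch.Inv (Bset a c) := by
  constructor
  · have : Bset a c = Set.Ioi 0 ∩ ⋂ n : ℕ, (f^[n]) ⁻¹' (Set.Icc a c)ᶜ := by
      ext x; simp [Bset]
    rw [this]
    refine measurableSet_Ioi.inter (MeasurableSet.iInter fun n => ?_)
    exact (Pool.Agent.H934R2.Ch.continuous_f.iterate n).measurable measurableSet_Icc.compl
  · intro x hx
    constructor
    · rintro ⟨_, h2⟩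
      refine ⟨Pool.Agent.W40.Ch.f_pos hx, fun n => ?_⟩
      have := h2 (n + 1)
      rwa [Function.iterate_succ_apply] at this
    · rintro ⟨_, h2⟩
      refine ⟨hx, fun n => ?_⟩
      rcases n with _ | n
      · intro hcon
        exact h2 0 (hg.maps x hcon)
      · rw [Function.iterate_succ_apply]; exact h2 n

theorem Bset_iff {a c : ℝ} (hg : Good a c) {x : ℝ} (hx : 1 ≤ x) : x ∈ Bset a c ↔ x ∈ Esc f a c := by
  have h1 := hg.a_lt
  have h2 := hg.c_gt
  constructor
  · rintro ⟨_, h3⟩
    refine ⟨?_, h3⟩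
    by_contra hcon
    rw [not_le] at hcon
    exact h3 0 ⟨by show a ≤ x; linarith, hcon.le⟩
  · rintro ⟨h3, h4⟩
    exact ⟨by linarith, h4⟩

theorem Bset_Ioi {a c : ℝ} (hg : Good a c) : Bset a c ∩ Set.Ioi 1 = Esc f a c := by
  have h2 := hg.c_gt
  ext x
  constructor
  · rintro ⟨h3, h4⟩
    exact (Bset_iff hg (le_of_lt h4)).1 h3
  · intro h3
    have h4 : (1 : ℝ) < x := by linarith [h3.1]
    exact ⟨(Bset_iff hg h4.le).2 h3, h4⟩

theorem share_eq {a c : ℝ} (hg : Good a c) {m : ℕ} (hm : 1 ≤ m) :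
    share (Esc f a c) m = bb (Bset a c) m := by
  have h1 : (1 : ℝ) ≤ m := by exact_mod_cast hm
  have e : Esc f a c ∩ Set.Ico (m : ℝ) (m + 1) = Bset a c ∩ cell m := by
    ext x
    constructor
    · rintro ⟨h3, h4⟩
      exact ⟨(Bset_iff hg (by linarith [h4.1])).2 h3, h4⟩
    · rintro ⟨h3, h4⟩
      exact ⟨(Bset_iff hg (by linarith [h4.1])).1 h3, h4⟩
  unfold share bb Measure.real
  rw [e]

theorem T_eq : T = Pool.Agent.H934R2.Ch.T := rfl

theorem J_eq (n : ℕ) : J n = Set.Icc (n : ℝ) (n + Pool.Agent.H934R2.Ch.b n) := rfl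

theorem J_reach {a c : ℝ} (hg : Good a c) {n : ℕ} (hn : 1 ≤ n) (hk : ∃ k : ℕ, T^[k] n = 1) :
    Disjoint (J n) (Esc f a c) := by
  obtain ⟨k, hk⟩ := hk
  rw [Set.disjoint_left]
  intro x hx hE
  have h1 := shadow hn (x := x) (by rw [← J_eq]; exact hx) k
  rw [← T_eq, hk] at h1
  apply hE.2 k
  have h2 := hg.a_lt
  have h3 := hg.c_gt
  have h4 : Pool.Agent.H934R2.Ch.b 1 ≤ 1 := by
    unfold Pool.Agent.H934R2.Ch.b; norm_num
  refine ⟨?_, ?_⟩
  · have := h1.1; push_cast at this; linarith
  · have := h1.2; push_cast at this; linarith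

theorem J_avoid {a c : ℝ} (hg : Good a c) {n : ℕ} (hn : 1 ≤ n) (hk : ∀ k : ℕ, T^[k] n ≠ 1) :
    J n ⊆ Esc f a c := by
  have h3 : ∀ k, 3 ≤ T^[k] n := by
    intro k
    have h1 := T_iter_pos hn k
    rw [← T_eq] at h1
    have h2 := hk k
    have h4 : T^[k] n ≠ 2 := by
      intro h5
      apply hk (k + 1)
      rw [Function.iterate_succ_apply', h5]
      rfl
    omega
  have hc := hg.c_lt
  intro x hx
  have key : ∀ k, (3 : ℝ) ≤ f^[k] x := by
    intro k
    have h1 := (shadow hn (x := x) (by rw [← J_eq]; exact hx) k).1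
    rw [← T_eq] at h1
    have h2 : (3 : ℝ) ≤ (T^[k] n : ℕ) := by exact_mod_cast h3 k
    linarith
  refine ⟨?_, fun k hcon => ?_⟩
  · have := key 0
    simp only [Function.iterate_zero, id] at this
    linarith
  · have := key k
    linarith [hcon.2]

theorem J_vol (n : ℕ) : 0 < volume (J n) := by
  unfold J
  rw [Real.volume_Icc]
  have : (0 : ℝ) < 5 / (6 * (2 * (n : ℝ) + 1)) := by positivity
  simpa using this

end Main

end Pool.Agent.Helper67.Chb
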